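import Mathlib

open Finset

namespace Pool.Agent.Results.MP_e82249_co.Join

/-- the join of `G` with the complete graph on `p` vertices -/
def join {V : Type} (G : SimpleGraph V) (p : ℕ) : SimpleGraph (V ⊕ Fin p) where
  Adj x y := match x, y with
    | .inl a, .inl b => G.Adj a b
    | .inl _, .inr _ => True
    | .inr _, .inl _ => True
    | .inr a, .inr b => a ≠ b
  symm := ⟨by
    rintro (a | a) (b | b) h
    · exact h.symm
    · trivial
    · trivial
    · exact Ne.symm h⟩
  loopless := ⟨by
    rintro (a | a) h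
    · exact G.irrefl h
    · exact h rfl⟩

open Classical in
/-- the number of proper `L`-colourings -/
noncomputable def cnt {V : Type} [Fintype V] (G : SimpleGraph V) (L : V → Finset ℕ) : ℕ :=
  ((Fintype.piFinset L).filter (fun f => ∀ u v, G.Adj u v → f u ≠ f v)).card

/-- the chromatic polynomial at `m` -/
noncomputable def chromPoly {V : Type} [Fintype V] (G : SimpleGraph V) (m : ℕ) : ℕ :=
  cnt G (fun _ => Finset.Icc 1 m)

/-- the list color function at `m` -/
noncomputable def listFn {V : Type} [Fintype V] (G : SimpleGraph V) (m : ℕ) : ℕ :=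
  sInf {k | ∃ L : V → Finset ℕ, (∀ v, (L v).card = m) ∧ cnt G L = k}

/-- enumeratively chromatic-choosable -/
def EnumChoosable {V : Type} [Fintype V] (G : SimpleGraph V) : Prop :=
  ∀ m : ℕ, G.chromaticNumber ≤ m → listFn G m = chromPoly G m

section basic
variable {V : Type} [Fintype V] (G : SimpleGraph V)

theorem cnt_map (L L' : V → Finset ℕ) (φ : V → ℕ → ℕ) (h1 : ∀ v, ∀ a ∈ L v, φ v a ∈ L' v)
    (h2 : ∀ v, ∀ a ∈ L v, ∀ b ∈ L v, φ v a = φ v b → a = b)
    (h3 : ∀ u v, G.Adj u v → ∀ a ∈ L u, ∀ b ∈ L v, a ≠ b → φ u a ≠ φ v b) :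
    cnt G L ≤ cnt G L' := by
  classical
  unfold cnt
  refine Finset.card_le_card_of_injOn (fun f v => φ v (f v)) ?_ ?_
  · intro f hf
    simp only [coe_filter, Fintype.mem_piFinset, Set.mem_ofPred_eq] at hf ⊢
    exact ⟨fun v => h1 v _ (hf.1 v), fun u v h => h3 u v h _ (hf.1 u) _ (hf.1 v) (hf.2 u v h)⟩
  · intro f hf g hg hfg
    simp only [coe_filter, Fintype.mem_piFinset, Set.mem_ofPred_eq] at hf hg
    funext v
    exact h2 v _ (hf.1 v) _ (hg.1 v) (congrFun hfg v)

theorem cnt_mono (L L' : V → Finset ℕ) (h : ∀ v, L v ⊆ L' v) : cnt G L ≤ cnt G L' :=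
  cnt_map G L L' (fun _ a => a) (fun v _ ha => h v ha) (fun _ _ _ _ _ h => h)
    (fun _ _ _ _ _ _ _ h => h)

theorem exinj (S T : Finset ℕ) (h : S.card ≤ T.card) :
    ∃ φ : ℕ → ℕ, (∀ a ∈ S, φ a ∈ T) ∧ ∀ a ∈ S, ∀ b ∈ S, φ a = φ b → a = b := by
  classical
  obtain ⟨e⟩ := Function.Embedding.nonempty_of_card_le (α := S) (β := T) (by simpa using h)
  refine ⟨fun a => if ha : a ∈ S then (e ⟨a, ha⟩).1 else 0, fun a ha => by simp [ha], ?_⟩
  intro a ha b hb hab
  simp only [ha, hb, dif_pos] at hab
  have := e.injective (Subtype.ext hab)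
  exact congrArg Subtype.val this

theorem cnt_const (S T : Finset ℕ) (h : S.card ≤ T.card) :
    cnt G (fun _ => S) ≤ cnt G (fun _ => T) := by
  obtain ⟨φ, h1, h2⟩ := exinj S T h
  exact cnt_map G _ _ (fun _ => φ) (fun _ => h1) (fun _ => h2)
    (fun _ _ _ a ha b hb hab h => hab (h2 a ha b hb h))

theorem cnt_le_pow (S : Finset ℕ) : cnt G (fun _ => S) ≤ S.card ^ Fintype.card V := by
  classical
  unfold cnt
  refine (card_filter_le _ _).trans ?_
  simp [Fintype.card_piFinset]

omit [Fintype V] in
theorem greedy (j : ℕ) (R : Finset ℕ) (L : V → Finset ℕ) (A : Finset V)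
    (h : ∀ u ∈ A, R.card + A.card * j ≤ (L u).card) :
    ∃ T : V → Finset ℕ, (∀ u ∈ A, T u ⊆ L u ∧ (T u).card = j ∧ Disjoint (T u) R) ∧
      ∀ u ∈ A, ∀ v ∈ A, u ≠ v → Disjoint (T u) (T v) := by
  classical
  induction A using Finset.induction_on with
  | empty => exact ⟨fun _ => ∅, by simp, by simp⟩
  | insert x A hx ih =>
    rw [card_insert_of_notMem hx] at h
    obtain ⟨T, h1, h2⟩ := ih (fun u hu => by
      have := h u (mem_insert_of_mem hu); nlinarith)
    have hb : (A.biUnion T).card ≤ A.card * j := by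
      refine card_biUnion_le.trans ?_
      rw [sum_congr rfl (fun u hu => (h1 u hu).2.1)]; simp
    have hc : j ≤ (L x \ (R ∪ A.biUnion T)).card := by
      have a1 := le_card_sdiff (R ∪ A.biUnion T) (L x)
      have a2 := card_union_le R (A.biUnion T)
      have a3 := h x (mem_insert_self _ _)
      have a4 : (A.card + 1) * j = A.card * j + j := by ring
      omega
    obtain ⟨S, hS1, hS2⟩ := exists_subset_card_eq hc
    have hd : ∀ u ∈ A, Disjoint S (T u) := by
      intro u hu
      rw [disjoint_left]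
      intro c hc hcu
      have := (mem_sdiff.1 (hS1 hc)).2
      exact this (mem_union_right _ (mem_biUnion.2 ⟨u, hu, hcu⟩))
    refine ⟨Function.update T x S, ?_, ?_⟩
    · intro u hu
      rcases mem_insert.1 hu with rfl | hu'
      · rw [Function.update_self]
        refine ⟨fun c hc => (mem_sdiff.1 (hS1 hc)).1, hS2, ?_⟩
        rw [disjoint_left]
        intro c hc hcu
        exact (mem_sdiff.1 (hS1 hc)).2 (mem_union_left _ hcu)
      · rw [Function.update_of_ne (by rintro rfl; exact hx hu')]; exact h1 u hu'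
    · intro u hu v hv huv
      rcases mem_insert.1 hu with rfl | hu' <;> rcases mem_insert.1 hv with rfl | hv'
      · exact absurd rfl huv
      · rw [Function.update_self, Function.update_of_ne huv.symm]; exact hd v hv'
      · rw [Function.update_self, Function.update_of_ne huv]; exact (hd u hu').symm
      · rw [Function.update_of_ne (by rintro rfl; exact hx hu'),
          Function.update_of_ne (by rintro rfl; exact hx hv')]
        exact h2 u hu' v hv' huv

theorem cnt_succ (L L' : V → Finset ℕ) (h : ∀ v, L v ⊆ L' v) (u0 : V) (c0 : ℕ) (h0 : c0 ∈ L' u0)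
    (h1 : ∀ v, c0 ∉ L v) (hp : 0 < cnt G L) : cnt G L + 1 ≤ cnt G L' := by
  classical
  unfold cnt at *
  obtain ⟨f, hf⟩ := card_pos.1 hp
  simp only [mem_filter, Fintype.mem_piFinset] at hf
  apply card_lt_card
  refine ⟨fun g hg => ?_, fun hs => ?_⟩
  · simp only [mem_filter, Fintype.mem_piFinset] at hg ⊢
    exact ⟨fun v => h v (hg.1 v), hg.2⟩
  · have : Function.update f u0 c0 ∈ (Fintype.piFinset L').filter
        (fun f => ∀ u v, G.Adj u v → f u ≠ f v) := by
      simp only [mem_filter, Fintype.mem_piFinset]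
      refine ⟨fun v => ?_, fun u v huv => ?_⟩
      · by_cases hv : v = u0
        · subst hv; simpa using h0
        · rw [Function.update_of_ne hv]; exact h v (hf.1 v)
      · by_cases hu : u = u0 <;> by_cases hv : v = u0
        · subst hu; subst hv; exact absurd huv G.irrefl
        · subst hu
          rw [Function.update_self, Function.update_of_ne hv]
          intro e; exact h1 v (e ▸ hf.1 v)
        · subst hv
          rw [Function.update_self, Function.update_of_ne hu]
          intro e; exact h1 u (e ▸ hf.1 u)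
        · rw [Function.update_of_ne hu, Function.update_of_ne hv]; exact hf.2 u v huv
    have := hs this
    simp only [mem_filter, Fintype.mem_piFinset] at this
    have := this.1 u0
    rw [Function.update_self] at this
    exact h1 u0 this

theorem lemY (L : V → Finset ℕ) (S : Finset ℕ) (A : Finset V) (hC : ∀ u, u ∉ A → S ⊆ L u)
    (hA : ∀ u ∈ A, S.card + 1 + Fintype.card V * S.card ≤ (L u).card)
    (u0 : V) (c0 : ℕ) (h0 : c0 ∈ L u0) (h1 : c0 ∉ S) (hp : 0 < cnt G (fun _ => S)) :
    cnt G (fun _ => S) + 1 ≤ cnt G L := by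
  classical
  obtain ⟨T, hT1, hT2⟩ := greedy S.card (insert c0 S) L A (fun u hu => by
    rw [card_insert_of_notMem h1]
    have := hA u hu
    have := Nat.mul_le_mul_right S.card (card_le_univ A)
    omega)
  have hφ : ∀ u, ∃ φ : ℕ → ℕ, u ∈ A → (∀ a ∈ S, φ a ∈ T u) ∧
      ∀ a ∈ S, ∀ b ∈ S, φ a = φ b → a = b := by
    intro u
    by_cases hu : u ∈ A
    · obtain ⟨φ, h⟩ := exinj S (T u) (hT1 u hu).2.1.ge
      exact ⟨φ, fun _ => h⟩
    · exact ⟨id, fun h => absurd h hu⟩
  choose φ hφ using hφ
  let L2 : V → Finset ℕ := fun u => if u ∈ A then T u else S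
  have e1 : cnt G (fun _ => S) ≤ cnt G L2 := by
    refine cnt_map G _ _ (fun u a => if u ∈ A then φ u a else a) ?_ ?_ ?_
    · intro v a ha
      by_cases hv : v ∈ A
      · simp only [L2, hv, if_true]; exact (hφ v hv).1 a ha
      · simp only [L2, hv, if_false]; exact ha
    · intro v a ha b hb
      by_cases hv : v ∈ A
      · simp only [hv, if_true]; exact (hφ v hv).2 a ha b hb
      · simp only [hv, if_false]; exact id
    · intro u v huv a ha b hb hab
      by_cases hu : u ∈ A <;> by_cases hv : v ∈ A <;> simp only [hu, hv, if_true, if_false]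
      · intro e
        exact disjoint_left.1 (hT2 u hu v hv huv.ne) ((hφ u hu).1 a ha) (e ▸ (hφ v hv).1 b hb)
      · intro e
        exact disjoint_left.1 (hT1 u hu).2.2 ((hφ u hu).1 a ha) (e ▸ mem_insert_of_mem hb)
      · intro e
        exact disjoint_left.1 (hT1 v hv).2.2 ((hφ v hv).1 b hb) (e ▸ mem_insert_of_mem ha)
      · exact hab
  have e2 := cnt_succ G L2 L (fun v => by
      by_cases hv : v ∈ A
      · simp only [L2, hv, if_true]; exact (hT1 v hv).1
      · simp only [L2, hv, if_false]; exact hC v hv) u0 c0 h0 (fun v => by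
      by_cases hv : v ∈ A
      · simp only [L2, hv, if_true]
        intro h; exact disjoint_left.1 (hT1 v hv).2.2 h (mem_insert_self _ _)
      · simp only [L2, hv, if_false]; exact h1) (by omega)
  omega

end basic

open Classical in
/-- systems of distinct representatives -/
noncomputable def sdr {p : ℕ} (M : Fin p → Finset ℕ) : Finset (Fin p → ℕ) :=
  (Fintype.piFinset M).filter Function.Injective

theorem mem_sdr {p : ℕ} {M : Fin p → Finset ℕ} {σ : Fin p → ℕ} :
    σ ∈ sdr M ↔ (∀ w, σ w ∈ M w) ∧ Function.Injective σ := by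
  simp [sdr]

theorem sdr_rec {p : ℕ} (M : Fin (p + 1) → Finset ℕ) (F : Finset ℕ → ℕ) :
    ∑ σ ∈ sdr M, F (univ.image σ) =
      ∑ c ∈ M 0, ∑ τ ∈ sdr (fun w : Fin p => (M w.succ).erase c), F (insert c (univ.image τ)) := by
  rw [Finset.sum_sigma']
  symm
  refine Finset.sum_bij' (fun x _ => (Fin.cons x.1 x.2 : Fin (p + 1) → ℕ))
    (fun σ _ => ⟨σ 0, Fin.tail σ⟩) ?_ ?_ ?_ ?_ ?_
  · rintro ⟨c, τ⟩ h
    simp only [mem_sigma, mem_sdr, mem_erase] at h ⊢
    refine ⟨fun w => ?_, ?_⟩
    · refine Fin.cases ?_ (fun w => ?_) w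
      · simpa using h.1
      · simpa using (h.2.1 w).2
    · rw [Fin.cons_injective_iff]
      refine ⟨?_, h.2.2⟩
      rintro ⟨w, hw⟩
      exact (h.2.1 w).1 hw
  · intro σ h
    simp only [mem_sigma, mem_sdr, mem_erase] at h ⊢
    refine ⟨h.1 0, fun w => ⟨fun e => ?_, h.1 _⟩, fun a b e => ?_⟩
    · exact Fin.succ_ne_zero w (h.2 e)
    · exact Fin.succ_injective _ (h.2 e)
  · rintro ⟨c, τ⟩ _
    simp
  · intro σ _
    simp
  · rintro ⟨c, τ⟩ _
    congr 1
    ext x
    simp [Fin.exists_fin_succ, eq_comm]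

theorem sdr_ge (p : ℕ) : ∀ (m : ℕ) (M : Fin p → Finset ℕ), (∀ w, m ≤ (M w).card) →
    m.descFactorial p ≤ (sdr M).card := by
  induction p with
  | zero =>
    intro m M _
    rw [Nat.descFactorial_zero]
    exact card_pos.2 ⟨Fin.elim0, mem_sdr.2 ⟨fun w => w.elim0, fun w => w.elim0⟩⟩
  | succ p ih =>
    intro m M h
    cases m with
    | zero => simp
    | succ m =>
      have := sdr_rec M (fun _ => 1)
      simp only [sum_const, smul_eq_mul, mul_one] at this
      rw [this, Nat.succ_descFactorial_succ]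
      calc (m + 1) * m.descFactorial p ≤ (M 0).card * m.descFactorial p :=
            Nat.mul_le_mul_right _ (h 0)
        _ = ∑ c ∈ M 0, m.descFactorial p := by simp
        _ ≤ _ := sum_le_sum fun c _ => ih m _ fun w => by
            have := pred_card_le_card_erase (s := M w.succ) (a := c)
            have := h w.succ
            omega

theorem sdr_const (p : ℕ) : ∀ (S : Finset ℕ),
    (sdr (fun _ : Fin p => S)).card = S.card.descFactorial p := by
  induction p with
  | zero =>
    intro S
    rw [Nat.descFactorial_zero, card_eq_one]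
    refine ⟨Fin.elim0, ?_⟩
    ext σ
    simp only [mem_sdr, mem_singleton]
    exact ⟨fun _ => funext fun w => w.elim0, fun _ => ⟨fun w => w.elim0, fun w => w.elim0⟩⟩
  | succ p ih =>
    intro S
    have := sdr_rec (fun _ : Fin (p + 1) => S) (fun _ => 1)
    simp only [sum_const, smul_eq_mul, mul_one] at this
    rw [this, sum_congr rfl (fun c hc => by rw [ih, card_erase_of_mem hc])]
    rw [sum_const, smul_eq_mul]
    cases S.card with
    | zero => simp
    | succ m => rw [Nat.succ_descFactorial_succ]; simp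

theorem slack (m : ℕ) (L K : Finset ℕ) (hL : L.card = m + 1) :
    ∑ c ∈ L, (m - (K.erase c).card) ≤ m * (m + 1 - K.card) := by
  by_cases h : m + 1 ≤ K.card
  · rw [sum_eq_zero]
    · omega
    · intro c _
      have := pred_card_le_card_erase (s := K) (a := c)
      omega
  · have h1 : ∑ c ∈ L, ((m - (K.erase c).card) + if c ∉ K then 1 else 0)
        = ∑ c ∈ L, (m + 1 - K.card) := by
      refine sum_congr rfl fun c _ => ?_
      by_cases hc : c ∈ K
      · have := card_pos.2 ⟨c, hc⟩
        rw [card_erase_of_mem hc]; simp only [hc, not_true, if_false]; omega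
      · rw [erase_eq_of_notMem hc]; simp only [hc, not_false_eq_true, if_true]; omega
    rw [sum_add_distrib, sum_const, hL, smul_eq_mul, ← card_filter, ← sdiff_eq_filter] at h1
    have h2 := le_card_sdiff K L
    rw [hL] at h2
    have h3 : (m + 1) * (m + 1 - K.card) = m * (m + 1 - K.card) + (m + 1 - K.card) := by ring
    omega

open Classical in
theorem lemX {V : Type} [Fintype V] (j : ℕ) (hj : 1 ≤ j) (p : ℕ) :
    ∀ (M : Fin p → Finset ℕ) (K : V → Finset ℕ), (∀ w, j + p ≤ (M w).card) →
      (j + p) * (j + p).descFactorial p ≤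
        (j + p) * (∑ σ ∈ sdr M, if ∀ v, j ≤ (K v \ univ.image σ).card then 1 else 0)
        + j * (∑ v, (j + p - (K v).card)) * (j + p).descFactorial p := by
  induction p with
  | zero =>
    intro M K _
    by_cases h : ∀ v, j ≤ (K v).card
    · have : sdr M = {Fin.elim0} := by
        ext σ
        simp only [mem_sdr, mem_singleton]
        exact ⟨fun _ => funext fun w => w.elim0, fun _ => ⟨fun w => w.elim0, fun w => w.elim0⟩⟩
      simp [this, h]
    · push Not at h
      obtain ⟨v, hv⟩ := h
      have : 1 ≤ ∑ v, (j + 0 - (K v).card) :=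
        le_trans (by omega) (single_le_sum (f := fun v => j + 0 - (K v).card)
          (fun _ _ => Nat.zero_le _) (mem_univ v))
      have := Nat.mul_le_mul_left j this
      simp only [Nat.descFactorial_zero, mul_one] at *
      omega
  | succ p ih =>
    intro M K h
    rw [sdr_rec M (fun U => if ∀ v, j ≤ (K v \ U).card then 1 else 0)]
    obtain ⟨L, hL1, hL2⟩ := exists_subset_card_eq (h 0)
    set g : ℕ → ℕ := fun c => ∑ τ ∈ sdr (fun w : Fin p => (M w.succ).erase c),
      if ∀ v, j ≤ (K v \ insert c (univ.image τ)).card then 1 else 0 with hg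
    have h1 : ∑ c ∈ L, g c ≤ ∑ c ∈ M 0, g c := sum_le_sum_of_subset hL1
    have h2 : ∀ c ∈ L, (j + p) * (j + p).descFactorial p ≤ (j + p) * g c
        + j * (∑ v, (j + p - ((K v).erase c).card)) * (j + p).descFactorial p := by
      intro c _
      have := ih (fun w : Fin p => (M w.succ).erase c) (fun v => (K v).erase c) (fun w => by
        have := pred_card_le_card_erase (s := M w.succ) (a := c)
        have := h w.succ
        omega)
      simpa only [hg, sdiff_insert, erase_sdiff_comm] using this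
    have h3 := sum_le_sum h2
    rw [sum_const, hL2, smul_eq_mul, sum_add_distrib, ← mul_sum, ← sum_mul, ← mul_sum,
      sum_comm] at h3
    have h4 : ∑ v, ∑ c ∈ L, (j + p - ((K v).erase c).card)
        ≤ (j + p) * ∑ v, (j + (p + 1) - (K v).card) := by
      rw [mul_sum]
      exact sum_le_sum fun v _ => slack (j + p) L (K v) hL2
    rw [show j + (p + 1) = (j + p) + 1 from rfl, Nat.succ_descFactorial_succ] at *
    set E := ∑ v, (j + p + 1 - (K v).card)
    set D := (j + p).descFactorial p
    set A := ∑ c ∈ M 0, g c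
    have h5 : (j + p) * ((j + p + 1) * D) ≤ (j + p) * (A + j * E * D) := by
      have a1 := Nat.mul_le_mul_left (j + p) h1
      have a2 := Nat.mul_le_mul_right D (Nat.mul_le_mul_left j h4)
      nlinarith
    have h6 := Nat.le_of_mul_le_mul_left h5 (by omega)
    have h7 := Nat.mul_le_mul_left (j + p + 1) h6
    nlinarith

theorem cnt_join {V : Type} [Fintype V] (G : SimpleGraph V) (p : ℕ) (L : V ⊕ Fin p → Finset ℕ) :
    cnt (join G p) L =
      ∑ σ ∈ sdr (fun w => L (.inr w)), cnt G (fun v => L (.inl v) \ univ.image σ) := by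
  classical
  unfold cnt
  rw [← card_sigma]
  refine card_bij' (fun f _ => ⟨fun w => f (.inr w), fun v => f (.inl v)⟩)
    (fun x _ => Sum.elim x.2 x.1) ?_ ?_ ?_ ?_
  · intro f hf
    simp only [mem_filter, Fintype.mem_piFinset, mem_sigma, mem_sdr, mem_sdiff, mem_image,
      mem_univ, true_and, not_exists] at hf ⊢
    refine ⟨⟨fun w => hf.1 _, fun a b e => ?_⟩, fun v => ⟨hf.1 _, fun w => ?_⟩,
      fun u v h => hf.2 _ _ h⟩
    · by_contra hab
      exact hf.2 (.inr a) (.inr b) hab e
    · exact hf.2 (.inr w) (.inl v) trivial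
  · rintro ⟨σ, f⟩ hf
    simp only [mem_filter, Fintype.mem_piFinset, mem_sigma, mem_sdr, mem_sdiff, mem_image,
      mem_univ, true_and, not_exists] at hf ⊢
    refine ⟨?_, ?_⟩
    · rintro (v | w)
      · exact (hf.2.1 v).1
      · exact hf.1.1 w
    · rintro (a | a) (b | b) h
      · exact hf.2.2 a b h
      · exact fun e => (hf.2.1 a).2 b e.symm
      · exact (hf.2.1 b).2 a
      · exact fun e => h (hf.1.2 e)
  · intro f _
    funext x
    cases x <;> rfl
  · rintro ⟨σ, f⟩ _
    rfl


section donner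
variable {V : Type} [Fintype V]

open Classical in
/-- list assignments constant along the pairs in `S` -/
noncomputable def eqc (S : Finset (V × V)) (L : V → Finset ℕ) : ℕ :=
  ((Fintype.piFinset L).filter (fun f => ∀ e ∈ S, f e.1 = f e.2)).card

/-- the equivalence relation generated by `S` -/
def rel (S : Finset (V × V)) : Setoid V := Relation.EqvGen.setoid (fun a b => (a, b) ∈ S)

omit [Fintype V] in
theorem rel_inv (S : Finset (V × V)) {α : Type} (f : V → α) (h : ∀ e ∈ S, f e.1 = f e.2)
    {a b : V} (hab : Quotient.mk (rel S) a = Quotient.mk (rel S) b) : f a = f b := by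
  have : Relation.EqvGen (fun a b => (a, b) ∈ S) a b := Quotient.exact hab
  clear hab
  induction this with
  | rel a b h1 => exact h (a, b) h1
  | refl a => rfl
  | symm a b _ ih => exact ih.symm
  | trans a b c _ _ ih1 ih2 => exact ih1.trans ih2

omit [Fintype V] in
theorem rel_mem (S : Finset (V × V)) {e : V × V} (he : e ∈ S) :
    Quotient.mk (rel S) e.1 = Quotient.mk (rel S) e.2 :=
  Quotient.sound (Relation.EqvGen.rel _ _ he)

open Classical in
theorem eqc_prod (S : Finset (V × V)) (L : V → Finset ℕ) :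
    eqc S L = ∏ q : Quotient (rel S),
      ((L q.out).filter (fun c => ∀ v, Quotient.mk (rel S) v = q → c ∈ L v)).card := by
  rw [← Fintype.card_piFinset]
  unfold eqc
  refine card_bij' (fun f _ q => f q.out) (fun g _ v => g (Quotient.mk (rel S) v)) ?_ ?_ ?_ ?_
  · intro f hf
    simp only [mem_filter, Fintype.mem_piFinset] at hf ⊢
    refine fun q => ⟨hf.1 _, fun v hv => ?_⟩
    rw [rel_inv S f hf.2 (a := q.out) (b := v) (by rw [hv]; exact q.out_eq)]
    exact hf.1 v
  · intro g hg
    simp only [mem_filter, Fintype.mem_piFinset] at hg ⊢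
    exact ⟨fun v => (hg _).2 v rfl, fun e he => by rw [rel_mem S he]⟩
  · intro f hf
    simp only [mem_filter, Fintype.mem_piFinset] at hf
    funext v
    exact rel_inv S f hf.2 (Quotient.out_eq _)
  · intro g _
    funext q
    simp only [Quotient.out_eq]

theorem prod_bound {Q : Type} (s : Finset Q) (b : Q → ℕ) (m t : ℕ) (h1 : ∀ q, b q ≤ m)
    (h2 : ∀ q, m ≤ b q + t) : ∏ q ∈ s, b q ≤ m ^ s.card ∧
      m * m ^ s.card ≤ m * ∏ q ∈ s, b q + s.card * t * m ^ s.card := by
  classical
  induction s using Finset.induction_on with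
  | empty => simp
  | insert x s hx ih =>
    rw [prod_insert hx, card_insert_of_notMem hx, pow_succ]
    obtain ⟨i1, i2⟩ := ih
    set P := ∏ q ∈ s, b q
    set Z := m ^ s.card
    constructor
    · rw [mul_comm Z]; exact Nat.mul_le_mul (h1 x) i1
    · have a1 := Nat.mul_le_mul_left m i2
      have a2 := Nat.mul_le_mul_right (m * P) (h2 x)
      have a3 := Nat.mul_le_mul_left (t * m) i1
      nlinarith

theorem card_quot (S : Finset (V × V)) [Fintype (Quotient (rel S))] (x y x' y' : V) (hxy : x ≠ y)
    (h1 : x' ≠ x) (h2 : x' ≠ y) (h3 : y' ≠ x) (h4 : y' ≠ y)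
    (hx : Quotient.mk (rel S) x' = Quotient.mk (rel S) x)
    (hy : Quotient.mk (rel S) y' = Quotient.mk (rel S) y) :
    Fintype.card (Quotient (rel S)) + 2 ≤ Fintype.card V := by
  classical
  have h : (univ : Finset (Quotient (rel S))).card ≤ ((univ.erase x).erase y).card := by
    refine card_le_card_of_surjOn (Quotient.mk (rel S)) ?_
    intro q _
    obtain ⟨v, rfl⟩ := q.exists_rep
    by_cases e1 : v = x
    · exact ⟨x', by simp [h1, h2], by rw [hx, e1]⟩
    · by_cases e2 : v = y
      · exact ⟨y', by simp [h3, h4], by rw [hy, e2]⟩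
      · exact ⟨v, by simp [e1, e2], rfl⟩
  rw [card_erase_of_mem (by simp [hxy.symm]), card_erase_of_mem (mem_univ _), card_univ,
    card_univ] at h
  have : 2 ≤ Fintype.card V := Fintype.one_lt_card_iff.2 ⟨x, y, hxy⟩
  omega

theorem card_quot2 (S : Finset (V × V)) [Fintype (Quotient (rel S))] (r : V → ℕ)
    (hr : ∀ e ∈ S, r e.1 < r e.2) (hS : 2 ≤ S.card) :
    Fintype.card (Quotient (rel S)) + 2 ≤ Fintype.card V := by
  obtain ⟨⟨a, b⟩, h1, ⟨c, d⟩, h2, hne⟩ := one_lt_card.1 hS
  have r1 := hr _ h1
  have r2 := hr _ h2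
  have q1 := rel_mem S h1
  have q2 := rel_mem S h2
  simp only at r1 r2 q1 q2
  have hab : a ≠ b := by rintro rfl; omega
  have hcd : c ≠ d := by rintro rfl; omega
  by_cases hbd : b = d
  · subst hbd
    have hac : a ≠ c := by rintro rfl; exact hne rfl
    exact card_quot S a c b b hac hab.symm hcd.symm hab.symm hcd.symm q1.symm q2.symm
  · by_cases had : a = d
    · subst had
      have hcb : c ≠ b := by rintro rfl; omega
      exact card_quot S b a c c hbd hcb hcd hcb hcd (q2.trans q1) q2
    · by_cases hcb : c = b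
      · subst hcb
        exact card_quot S c d a a hbd hab had hab had q1 (q1.trans q2)
      · exact card_quot S b d a c hbd hab had hcb hcd q1 q2

theorem eqc_big (S : Finset (V × V)) (r : V → ℕ) (hr : ∀ e ∈ S, r e.1 < r e.2) (hS : 2 ≤ S.card)
    (m : ℕ) (hm : 1 ≤ m) (L : V → Finset ℕ) (hL : ∀ v, (L v).card = m) (T : Finset ℕ)
    (hT : T.card = m) :
    eqc S L ≤ eqc S (fun _ => T) ∧ m * eqc S (fun _ => T) ≤ m * eqc S L +
      Fintype.card V * (2 * ∑ e ∈ S, (L e.1 \ L e.2).card) * m ^ (Fintype.card V - 2) := by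
  classical
  have hU : eqc S (fun _ => T) = m ^ Fintype.card (Quotient (rel S)) := by
    rw [eqc_prod]
    rw [prod_congr rfl (g := fun _ => m)]
    · simp
    · intro q _
      rw [filter_true_of_mem (fun c hc _ _ => hc), hT]
  let B : Finset ℕ := S.biUnion (fun e => (L e.1 \ L e.2) ∪ (L e.2 \ L e.1))
  have hB : B.card ≤ 2 * ∑ e ∈ S, (L e.1 \ L e.2).card := by
    refine card_biUnion_le.trans ?_
    rw [mul_sum]
    refine sum_le_sum fun e _ => (card_union_le _ _).trans ?_
    rw [card_sdiff_comm (s := L e.2) (t := L e.1) (by rw [hL, hL])]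
    omega
  have := prod_bound (univ : Finset (Quotient (rel S)))
    (fun q => ((L q.out).filter (fun c => ∀ v, Quotient.mk (rel S) v = q → c ∈ L v)).card) m
    (2 * ∑ e ∈ S, (L e.1 \ L e.2).card) (fun q => (card_filter_le _ _).trans (hL _).le) (fun q => by
      have h1 : L q.out \ B ⊆
          (L q.out).filter (fun c => ∀ v, Quotient.mk (rel S) v = q → c ∈ L v) := by
        intro c hc
        rw [mem_sdiff] at hc
        refine mem_filter.2 ⟨hc.1, fun v hv => ?_⟩
        have := rel_inv S (fun v => c ∈ L v) (fun e he => by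
          have : c ∉ (L e.1 \ L e.2) ∪ (L e.2 \ L e.1) :=
            fun h => hc.2 (mem_biUnion.2 ⟨e, he, h⟩)
          simp only [mem_union, mem_sdiff, not_or, not_and, not_not] at this
          exact propext ⟨this.1, this.2⟩) (a := q.out) (b := v) (by rw [hv]; exact q.out_eq)
        exact this ▸ hc.1
      have h2 := card_le_card h1
      have h3 := le_card_sdiff B (L q.out)
      rw [hL] at h3
      omega)
  rw [← eqc_prod, card_univ, ← hU] at this
  refine ⟨this.1, this.2.trans (Nat.add_le_add_left ?_ _)⟩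
  have hq := card_quot2 S r hr hS
  rw [hU]
  exact Nat.mul_le_mul (Nat.mul_le_mul_right _ (by omega)) (Nat.pow_le_pow_right hm (by omega))

theorem eqc_one (a b : V) (hab : a ≠ b) (m : ℕ) (L : V → Finset ℕ) (hL : ∀ v, (L v).card = m) :
    eqc {(a, b)} L = (L a ∩ L b).card * m ^ (Fintype.card V - 2) := by
  classical
  let L2 : V → Finset ℕ := Function.update (Function.update L a (L a ∩ L b)) b {0}
  have e1 : L2 a = L a ∩ L b := by simp [L2, hab]
  have e2 : L2 b = {0} := by simp [L2]
  have e3 : ∀ v, v ≠ a → v ≠ b → L2 v = L v := fun v h1 h2 => by simp [L2, h1, h2]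
  have h1 : eqc {(a, b)} L = (Fintype.piFinset L2).card := by
    unfold eqc
    refine card_bij' (fun f _ => Function.update f b 0) (fun g _ => Function.update g b (g a))
      ?_ ?_ ?_ ?_
    · intro f hf
      simp only [mem_filter, Fintype.mem_piFinset, mem_singleton, forall_eq] at hf ⊢
      intro v
      by_cases hb : v = b
      · subst hb; simp [e2]
      · rw [Function.update_of_ne hb]
        by_cases ha : v = a
        · subst ha; rw [e1]; exact mem_inter.2 ⟨hf.1 _, hf.2 ▸ hf.1 b⟩
        · rw [e3 v ha hb]; exact hf.1 v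
    · intro g hg
      simp only [mem_filter, Fintype.mem_piFinset, mem_singleton, forall_eq] at hg ⊢
      have ha' := hg a
      rw [e1, mem_inter] at ha'
      refine ⟨fun v => ?_, by simp [hab]⟩
      by_cases hb : v = b
      · subst hb; simpa using ha'.2
      · rw [Function.update_of_ne hb]
        by_cases ha : v = a
        · subst ha; exact ha'.1
        · rw [← e3 v ha hb]; exact hg v
    · intro f hf
      simp only [mem_filter, Fintype.mem_piFinset, mem_singleton, forall_eq] at hf
      simp [hab, hf.2]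
    · intro g hg
      simp only [Fintype.mem_piFinset] at hg
      have := hg b
      rw [e2, mem_singleton] at this
      simp [← this]
  rw [h1, Fintype.card_piFinset, ← mul_prod_erase _ _ (mem_univ a),
    ← mul_prod_erase _ _ (a := b) (by simp [hab.symm]), e1, e2,
    prod_congr rfl (g := fun _ => m) (fun v hv => by
      simp only [mem_erase] at hv
      rw [e3 v hv.2.1 hv.1, hL])]
  rw [prod_const, card_erase_of_mem (by simp [hab.symm]), card_erase_of_mem (mem_univ _), card_univ]
  simp [Nat.sub_sub]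

theorem incl_excl (G : SimpleGraph V) (E : Finset (V × V)) (h1 : ∀ e ∈ E, G.Adj e.1 e.2)
    (h2 : ∀ u v, G.Adj u v → (u, v) ∈ E ∨ (v, u) ∈ E) (L : V → Finset ℕ) :
    (cnt G L : ℤ) = ∑ S ∈ E.powerset, (-1) ^ S.card * (eqc S L : ℤ) := by
  classical
  have h : ∀ f : V → ℕ, (if ∀ u v, G.Adj u v → f u ≠ f v then (1 : ℤ) else 0)
      = ∑ S ∈ E.powerset, (-1) ^ S.card * (if ∀ e ∈ S, f e.1 = f e.2 then 1 else 0) := by
    intro f
    have : ∏ e ∈ E, (1 + -(if f e.1 = f e.2 then (1 : ℤ) else 0))
        = if ∀ u v, G.Adj u v → f u ≠ f v then (1 : ℤ) else 0 := by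
      split_ifs with hf
      · refine prod_eq_one fun e he => ?_
        simp [hf _ _ (h1 e he)]
      · push Not at hf
        obtain ⟨u, v, huv, e⟩ := hf
        rcases h2 u v huv with h | h
        · exact prod_eq_zero h (by simp [e])
        · exact prod_eq_zero h (by simp [e])
    rw [← this, prod_one_add]
    refine sum_congr rfl fun S _ => ?_
    rw [prod_neg, prod_boole]
    congr
  unfold cnt eqc
  simp only [card_filter]
  push_cast
  simp only [mul_sum]
  rw [sum_comm]
  refine sum_congr (by congr) fun f _ => ?_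
  convert h f

theorem donner (G : SimpleGraph V) : ∃ k : ℕ, ∀ m, k ≤ m → ∀ L : V → Finset ℕ,
    (∀ v, (L v).card = m) → ∀ T : Finset ℕ, T.card = m → cnt G (fun _ => T) ≤ cnt G L := by
  classical
  obtain ⟨r, hr⟩ : ∃ r : V → ℕ, Function.Injective r :=
    ⟨fun v => (Fintype.equivFin V v).1, fun a b h => (Fintype.equivFin V).injective (Fin.ext h)⟩
  obtain ⟨E, h1, h2, h3⟩ : ∃ E : Finset (V × V), (∀ e ∈ E, G.Adj e.1 e.2) ∧
      (∀ u v, G.Adj u v → (u, v) ∈ E ∨ (v, u) ∈ E) ∧ ∀ e ∈ E, r e.1 < r e.2 := by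
    refine ⟨univ.filter (fun e => G.Adj e.1 e.2 ∧ r e.1 < r e.2),
      fun e he => (mem_filter.1 he).2.1, ?_, fun e he => (mem_filter.1 he).2.2⟩
    intro u v h
    have : r u ≠ r v := fun e => h.ne (hr e)
    simp only [mem_filter, mem_univ, true_and, h, h.symm]
    omega
  refine ⟨2 ^ E.card * (Fintype.card V * 2) + 1, fun m hm L hL T hT => ?_⟩
  set n := Fintype.card V
  set Z : ℤ := (m : ℤ) ^ (n - 2) with hZ
  have hZ0 : 0 ≤ Z := by positivity
  let d : V × V → ℤ := fun e => ((L e.1 \ L e.2).card : ℤ)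
  have hd : ∀ e, 0 ≤ d e := fun e => Nat.cast_nonneg _
  let μ : ℤ := ∑ e ∈ E, d e
  have hμ : 0 ≤ μ := sum_nonneg fun e _ => hd e
  have key : ∀ S ∈ E.powerset, (if S.card = 1 then m * Z * ∑ e ∈ S, d e else 0) - n * 2 * μ * Z ≤
      m * ((-1) ^ S.card * (eqc S L : ℤ) - (-1) ^ S.card * (eqc S (fun _ => T) : ℤ)) := by
    intro S hS
    rw [mem_powerset] at hS
    have hpos : 0 ≤ n * 2 * μ * Z := by positivity
    by_cases c0 : S.card = 0
    · rw [card_eq_zero] at c0
      subst c0
      have : ∀ L' : V → Finset ℕ, (∀ v, (L' v).card = m) → eqc ∅ L' = m ^ n := by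
        intro L' h
        simp [eqc, Fintype.card_piFinset, h, n]
      rw [this L hL, this _ (fun _ => hT)]
      rw [if_neg (by rw [card_empty]; omega), sub_self, mul_zero]
      linarith
    · by_cases c1 : S.card = 1
      · obtain ⟨⟨a, b⟩, rfl⟩ := card_eq_one.1 c1
        have hab : a ≠ b := (h1 _ (hS (mem_singleton_self _))).ne
        rw [eqc_one a b hab m L hL, eqc_one a b hab m _ (fun _ => hT), inter_self, hT]
        have := card_sdiff_add_card_inter (L a) (L b)
        rw [hL] at this
        have e : (m : ℤ) = d (a, b) + (L a ∩ L b).card := by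
          simp only [d]; exact_mod_cast this.symm
        simp only [card_singleton, if_true, sum_singleton, pow_one]
        push_cast
        rw [← hZ]
        have : (m : ℤ) * (-1 * ((L a ∩ L b).card * Z) - -1 * (m * Z)) = m * Z * d (a, b) := by
          rw [show d (a, b) = m - (L a ∩ L b).card by linarith]; ring
        linarith
      · obtain ⟨b1, b2⟩ := eqc_big S r (fun e he => h3 e (hS he)) (by omega) m
          (by omega) L hL T hT
        have b3 : ∑ e ∈ S, d e ≤ μ := sum_le_sum_of_subset_of_nonneg hS fun e _ _ => hd e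
        have b1' : (eqc S L : ℤ) ≤ eqc S (fun _ => T) := by exact_mod_cast b1
        have b2' : (m : ℤ) * eqc S (fun _ => T) ≤ m * eqc S L + n * (2 * ∑ e ∈ S, d e) * Z := by
          simp only [d, hZ]; exact_mod_cast b2
        have b4 : n * (2 * ∑ e ∈ S, d e) * Z ≤ n * 2 * μ * Z := by
          have : (0 : ℤ) ≤ n * 2 * Z := by positivity
          nlinarith
        have b5 : (m : ℤ) * eqc S L ≤ m * eqc S (fun _ => T) :=
          mul_le_mul_of_nonneg_left b1' (Nat.cast_nonneg _)
        rw [if_neg c1]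
        rcases neg_one_pow_eq_or ℤ S.card with h | h <;> rw [h] <;> linarith
  have s1 := sum_le_sum key
  rw [← mul_sum, sum_sub_distrib, sum_sub_distrib, ← incl_excl G E h1 h2, ← incl_excl G E h1 h2,
    sum_const, card_powerset, ← sum_filter, ← powersetCard_eq_filter, powersetCard_one,
    sum_map] at s1
  simp only [Function.Embedding.coeFn_mk, sum_singleton, ← mul_sum, nsmul_eq_mul] at s1
  have hm' : (2 : ℤ) ^ E.card * (n * 2) + 1 ≤ m := by exact_mod_cast hm
  have hm0 : (0 : ℤ) < m := by
    have : (0 : ℤ) ≤ 2 ^ E.card * (n * 2) := by positivity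
    linarith
  have s2 : (0 : ℤ) ≤ m * ((cnt G L : ℤ) - cnt G (fun _ => T)) := by
    refine le_trans ?_ s1
    push_cast
    have : 0 ≤ μ * Z := mul_nonneg hμ hZ0
    change 0 ≤ m * Z * μ - 2 ^ E.card * (n * 2 * μ * Z)
    nlinarith
  have := (mul_nonneg_iff_of_pos_left hm0).1 s2
  exact_mod_cast (sub_nonneg.1 this)

end donner


theorem good {V : Type} [Fintype V] (G : SimpleGraph V) (j p : ℕ) (L : V → Finset ℕ)
    (hL : ∀ v, (L v).card = j + p) (a b : V) (hab : L a ≠ L b) (U : Finset ℕ) (hU : U.card = p)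
    (B : ℕ) (hB : B = j + 1 + Fintype.card V * j) (T : Finset ℕ) (hT : T.card = j)
    (hp : 0 < cnt G (fun _ => T))
    (hK : ∀ v, j ≤ (((L v).filter
      (fun c => ∀ u, (L v \ L u).card ≤ 2 * B → c ∈ L u)) \ U).card) :
    cnt G (fun _ => T) + 1 ≤ cnt G (fun v => L v \ U) := by
  classical
  obtain ⟨v0, -, hv0⟩ := exists_min_image univ (fun v => (L v \ U).card) ⟨a, mem_univ _⟩
  obtain ⟨S, hS1, hS2⟩ := exists_subset_card_eq (hK v0)
  have e1 : cnt G (fun _ => T) = cnt G (fun _ => S) :=
    le_antisymm (cnt_const G _ _ (by omega)) (cnt_const G _ _ (by omega))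
  have hun : ∀ u v, j + (L v \ L u).card ≤ ((L v \ U) ∪ (L u \ U)).card := by
    intro u v
    rw [← union_sdiff_distrib]
    have h1 := le_card_sdiff U (L v ∪ L u)
    have h2 := card_sdiff_add_card (L v) (L u)
    rw [hL] at h2
    omega
  have hex : ∃ u0 c0, c0 ∈ L u0 \ U ∧ c0 ∉ S := by
    have h1 := hun a b
    have h2 : 0 < (L b \ L a).card := by
      rw [card_pos, sdiff_nonempty]
      intro h
      exact hab (eq_of_subset_of_card_le h (by rw [hL, hL])).symm
    obtain ⟨c, hc1, hc2⟩ := exists_mem_notMem_of_card_lt_card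
      (s := S) (t := (L b \ U) ∪ (L a \ U)) (by omega)
    rcases mem_union.1 hc1 with h | h
    · exact ⟨_, _, h, hc2⟩
    · exact ⟨_, _, h, hc2⟩
  obtain ⟨u0, c0, h0, h1⟩ := hex
  rw [e1] at hp ⊢
  refine lemY G _ S (univ.filter (fun u => 2 * B < (L v0 \ L u).card)) ?_ ?_ u0 c0 h0 h1 hp
  · intro u hu c hc
    simp only [mem_filter, mem_univ, true_and, not_lt] at hu
    have := hS1 hc
    simp only [mem_sdiff, mem_filter] at this ⊢
    exact ⟨this.1.2 u hu, this.2⟩
  · intro u hu
    simp only [mem_filter, mem_univ, true_and] at hu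
    have h2 := hun u v0
    have h3 := card_union_le (L v0 \ U) (L u \ U)
    have h4 := hv0 u (mem_univ _)
    rw [hS2, ← hB]
    omega

theorem small {V : Type} [Fintype V] (G : SimpleGraph V) (j : ℕ) : ∃ p0, ∀ p, p0 ≤ p →
    ∀ L : V ⊕ Fin p → Finset ℕ, (∀ x, (L x).card = j + p) → ∀ T : Finset ℕ, T.card = j →
      (j + p).descFactorial p * cnt G (fun _ => T) ≤ cnt (join G p) L := by
  classical
  obtain ⟨B, hB⟩ : ∃ B, B = j + 1 + Fintype.card V * j := ⟨_, rfl⟩
  set n := Fintype.card V with hn
  refine ⟨j * (n * (n * (2 * B))) * (j ^ n + 1) + 1, fun p hp L hL T hT => ?_⟩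
  rw [cnt_join]
  have hU : ∀ σ ∈ sdr (fun w => L (.inr w)), (univ.image σ).card = p := fun σ hσ => by
    rw [card_image_of_injective _ (mem_sdr.1 hσ).2]; simp
  by_cases hall : ∀ a b : V, L (.inl a) = L (.inl b)
  · have h1 := sdr_ge p (j + p) (fun w => L (.inr w)) (fun w => (hL _).ge)
    calc _ ≤ (sdr (fun w => L (.inr w))).card * cnt G (fun _ => T) := Nat.mul_le_mul_right _ h1
      _ = ∑ σ ∈ sdr (fun w => L (.inr w)), cnt G (fun _ => T) := by simp
      _ ≤ _ := sum_le_sum fun σ hσ => by
        rcases isEmpty_or_nonempty V with hV | ⟨⟨a⟩⟩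
        · exact cnt_mono G _ _ (fun v => hV.elim v)
        · refine (cnt_const G T (L (.inl a) \ univ.image σ) ?_).trans
            (cnt_mono G _ _ (fun v => by rw [hall a v]))
          have := le_card_sdiff (univ.image σ) (L (.inl a))
          rw [hL, hU σ hσ] at this
          omega
  · push Not at hall
    obtain ⟨a, b, hab⟩ := hall
    rcases Nat.eq_zero_or_pos (cnt G (fun _ => T)) with h0 | hpos
    · rw [h0]; simp
    have hle := cnt_le_pow G T
    rw [hT, ← hn] at hle
    have hj : 1 ≤ j := by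
      rcases Nat.eq_zero_or_pos j with rfl | h
      · have : 0 < n := Fintype.card_pos_iff.2 ⟨a⟩
        rw [zero_pow this.ne'] at hle
        omega
      · exact h
    let K : V → Finset ℕ := fun v => (L (.inl v)).filter
      (fun c => ∀ u, (L (.inl v) \ L (.inl u)).card ≤ 2 * B → c ∈ L (.inl u))
    have hX := lemX j hj p (fun w => L (.inr w)) K (fun w => (hL _).ge)
    have hE : ∑ v, (j + p - (K v).card) ≤ n * (n * (2 * B)) := by
      refine (sum_le_sum (g := fun _ => n * (2 * B)) fun v _ => ?_).trans (by simp [hn])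
      let A := univ.filter (fun u => (L (.inl v) \ L (.inl u)).card ≤ 2 * B)
      have h1 : (A.biUnion (fun u => L (.inl v) \ L (.inl u))).card ≤ n * (2 * B) := by
        refine card_biUnion_le.trans ?_
        refine (sum_le_sum (g := fun _ => 2 * B) fun u hu => (mem_filter.1 hu).2).trans ?_
        rw [sum_const, smul_eq_mul]
        exact Nat.mul_le_mul_right _ (card_le_univ A)
      have h2 : L (.inl v) \ (A.biUnion (fun u => L (.inl v) \ L (.inl u))) ⊆ K v := by
        intro c hc
        simp only [mem_sdiff, mem_biUnion, not_exists, not_and, not_not, A, K, mem_filter,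
          mem_univ, true_and] at hc ⊢
        exact ⟨hc.1, fun u hu => hc.2 u hu hc.1⟩
      have h3 := card_le_card h2
      have h4 := le_card_sdiff (A.biUnion (fun u => L (.inl v) \ L (.inl u))) (L (.inl v))
      rw [hL] at h4
      omega
    set g := ∑ σ ∈ sdr (fun w => L (.inr w)),
      if ∀ v, j ≤ (K v \ univ.image σ).card then 1 else 0 with hg
    have h5 : g * (cnt G (fun _ => T) + 1) ≤
        ∑ σ ∈ sdr (fun w => L (.inr w)), cnt G (fun v => L (.inl v) \ univ.image σ) := by
      rw [hg, sum_mul]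
      refine sum_le_sum fun σ hσ => ?_
      split_ifs with h
      · rw [one_mul]
        exact good G j p (fun v => L (.inl v)) (fun v => hL _) a b hab _ (hU σ hσ) B hB T hT hpos h
      · simp
    refine le_trans ?_ h5
    set c := cnt G (fun _ => T)
    set D := (j + p).descFactorial p
    set E := ∑ v, (j + p - (K v).card)
    have h6 : j * E * (c + 1) ≤ j + p := by
      have : j * E * (c + 1) ≤ j * (n * (n * (2 * B))) * (j ^ n + 1) :=
        Nat.mul_le_mul (Nat.mul_le_mul_left _ hE) (by omega)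
      omega
    have h7 : (j + p) * (D * c) ≤ (j + p) * (g * (c + 1)) := by
      have a1 := Nat.mul_le_mul_right (c + 1) hX
      have a2 := Nat.mul_le_mul_right D h6
      nlinarith
    exact Nat.le_of_mul_le_mul_left h7 (by omega)

theorem main {V : Type} [Fintype V] (G : SimpleGraph V) : ∃ p, 1 ≤ p ∧ ∀ (m : ℕ)
    (L : V ⊕ Fin p → Finset ℕ), (∀ x, (L x).card = m) →
      cnt (join G p) (fun _ => Finset.Icc 1 m) ≤ cnt (join G p) L := by
  classical
  obtain ⟨k, hk⟩ := donner G
  choose p0 hp0 using small G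
  obtain ⟨p, hp⟩ : ∃ p, p = ∑ j ∈ range k, p0 j + 1 := ⟨_, rfl⟩
  refine ⟨p, by omega, fun m L hL => ?_⟩
  have hU : ∀ (M : Fin p → Finset ℕ), ∀ σ ∈ sdr M, (univ.image σ).card = p := fun M σ hσ => by
    rw [card_image_of_injective _ (mem_sdr.1 hσ).2]; simp
  by_cases hm : m < p
  · rw [cnt_join G p (fun _ => Finset.Icc 1 m)]
    have := sdr_const p (Finset.Icc 1 m)
    rw [Nat.card_Icc, Nat.add_sub_cancel, Nat.descFactorial_of_lt hm, card_eq_zero] at this
    rw [this]; simp
  obtain ⟨j, rfl⟩ : ∃ j, m = j + p := ⟨m - p, by omega⟩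
  have h1 : cnt (join G p) (fun _ => Finset.Icc 1 (j + p))
      ≤ (j + p).descFactorial p * cnt G (fun _ => range j) := by
    rw [cnt_join]
    have := sdr_const p (Finset.Icc 1 (j + p))
    rw [Nat.card_Icc, Nat.add_sub_cancel] at this
    rw [← this, ← smul_eq_mul, ← sum_const]
    refine sum_le_sum fun σ hσ => cnt_const G _ _ ?_
    rw [card_sdiff_of_subset, hU _ σ hσ]
    · simp
    · intro c hc
      obtain ⟨w, -, rfl⟩ := mem_image.1 hc
      exact (mem_sdr.1 hσ).1 w
  refine h1.trans ?_
  by_cases hj : j < k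
  · refine hp0 j p ?_ L hL _ (card_range j)
    have := single_le_sum (f := p0) (fun _ _ => Nat.zero_le _) (mem_range.2 hj)
    omega
  · rw [cnt_join]
    have h2 := sdr_ge p (j + p) (fun w => L (.inr w)) (fun w => (hL _).ge)
    calc _ ≤ (sdr (fun w => L (.inr w))).card * cnt G (fun _ => range j) :=
          Nat.mul_le_mul_right _ h2
      _ = ∑ σ ∈ sdr (fun w => L (.inr w)), cnt G (fun _ => range j) := by simp
      _ ≤ _ := sum_le_sum fun σ hσ => by
        have h3 : ∀ v, ∃ S, S ⊆ L (.inl v) \ univ.image σ ∧ S.card = j := fun v => by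
          apply exists_subset_card_eq
          have := le_card_sdiff (univ.image σ) (L (.inl v))
          rw [hL, hU _ σ hσ] at this
          omega
        choose S hS1 hS2 using h3
        exact (hk j (by omega) S hS2 _ (card_range j)).trans (cnt_mono G _ _ hS1)

theorem result (V : Type) [Fintype V] (G : SimpleGraph V) :
    ∃ p : ℕ, 1 ≤ p ∧ EnumChoosable (join G p) := by
  obtain ⟨p, hp, h⟩ := main G
  refine ⟨p, hp, fun m _ => le_antisymm ?_ ?_⟩
  · exact Nat.sInf_le ⟨fun _ => Finset.Icc 1 m, fun _ => by simp, rfl⟩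
  · refine le_csInf ⟨_, fun _ => Finset.Icc 1 m, fun _ => by simp, rfl⟩ ?_
    rintro k ⟨L, hL, rfl⟩
    exact h m L hL

end Pool.Agent.Results.MP_e82249_co.Join
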